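import Mathlib
import Pool.Agent.P.MP_c5cf5d_nt.Digits

set_option autoImplicit false

namespace Pool.Agent.Results.MP_c5cf5d_nt.LowComplexity

/-- If a 0-1 sequence is not ultimately periodic and, for every `c > 0`, the lengths `m` such that
some block of length `m` occurs twice at positions `≤ c m log m / log log m` have upper logarithmic
density at least a fixed `ε > 0`, then both evaluations are transcendental. -/
theorem result :
    ∀ e : ℕ → ℕ, (∀ n, e n ≤ 1) →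
      (¬ ∃ N p : ℕ, 0 < p ∧ ∀ n, N ≤ n → e (n + p) = e n) →
      (∃ ε : ℝ, 0 < ε ∧ ∀ c : ℝ, 0 < c → ∃ᶠ N : ℕ in Filter.atTop, ∃ s : Finset ℕ,
        (∀ m ∈ s, m ≤ N ∧ ∃ i i' : ℕ, i < i' ∧
          (i' : ℝ) ≤ c * (m : ℝ) * Real.log m / Real.log (Real.log m) ∧
          ∀ t : ℕ, t < m → e (i + t) = e (i' + t)) ∧
        ε * Real.log N < ∑ m ∈ s, (1 / (m : ℝ))) →
      (Transcendental ℚ (∑' n : ℕ, (e n : ℝ) / (2 : ℝ) ^ (n + 1)) ∧
        Transcendental ℚ (∑' n : ℕ, (e n : ℝ) / (3 : ℝ) ^ (n + 1))) := by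
  intro e he hper ⟨ε, hε, h⟩
  have key : ∀ b : ℕ, 2 ≤ b → Transcendental ℚ (∑' n : ℕ, (e n : ℝ) / (b : ℝ) ^ (n + 1)) := by
    intro b hb halg
    obtain ⟨c, hc, h1⟩ := Pool.Agent.P.MP_c5cf5d_nt.low_complexity hb he hper halg ε hε
    obtain ⟨N, ⟨s, hs, h2⟩, h3⟩ := ((h c hc).and_eventually h1).exists
    refine absurd (h3 s fun m hm => ?_) (not_le.2 h2)
    obtain ⟨a1, i, i', a2, a3, a4⟩ := hs m hm
    exact ⟨a1, i, i', a3, a2, a4⟩
  exact ⟨by exact_mod_cast key 2 le_rfl, by exact_mod_cast key 3 (by norm_num)⟩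

end Pool.Agent.Results.MP_c5cf5d_nt.LowComplexity
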